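import Pool.Agent.Lib.MP_ca0fc2_an.Mg.G122

set_option autoImplicit false

open Metric Set Filter Topology
open scoped InnerProductSpace

namespace Pool.Agent.MPca0fc2.TH

open Pool.Agent.MPca0fc2.TB

variable {n : ℕ} {D : Set (En n)} {p : En n} {W : En n → ℂ} {S : En n →L[ℂ] En n} {e : En n}
  {κ C : ℝ}

private theorem G3_inv (h : SG D p W S e κ C) {ε s : ℝ} (hε : 0 < ε) (hε1 : ε < 1) (hs : 0 < s) :
    ∃ r₀ > 0, ∀ r, 0 < r → r < r₀ → ∃ ψ : En n → En n, DifferentiableOn ℂ ψ (ball 0 (1 - ε)) ∧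
      ∀ ζ ∈ ball (0 : En n) (1 - ε), ψ ζ ∈ D ∧ Th p W S e r (ψ ζ) = ζ ∧
        ε / 2 * r ^ 2 ≤ ‖W (ψ ζ)‖ ∧ ‖W (ψ ζ)‖ ≤ 2 / ε * r ^ 2 := by
  have hκ := h.κ0
  have hC := h.C0
  obtain ⟨a, ha, G, hG, hGy⟩ := h.inv
  obtain ⟨s', hs', hlow⟩ := h.low (ε ^ 3 / (144 * C ^ 2)) (by positivity)
  obtain ⟨r₀, hr₀, hr₀1, hr₀a, hr₀s, hr₀s', hr₀e⟩ : ∃ r₀ : ℝ, 0 < r₀ ∧ r₀ ≤ 1 ∧ 3 * r₀ / ε ≤ a ∧
      C * (3 * r₀ / ε) ≤ s ∧ C * (3 * r₀ / ε) ≤ s' ∧ r₀ ≤ ε ^ 3 / (96 * C ^ 2) := by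
    refine ⟨min 1 (min (a * ε / 3) (min (s * ε / (3 * C)) (min (s' * ε / (3 * C))
      (ε ^ 3 / (96 * C ^ 2))))), by positivity, min_le_left _ _, ?_, ?_, ?_, ?_⟩
    · have h1 : min 1 (min (a * ε / 3) (min (s * ε / (3 * C)) (min (s' * ε / (3 * C))
        (ε ^ 3 / (96 * C ^ 2))))) ≤ a * ε / 3 := (min_le_right _ _).trans (min_le_left _ _)
      calc 3 * min 1 (min (a * ε / 3) (min (s * ε / (3 * C)) (min (s' * ε / (3 * C))
        (ε ^ 3 / (96 * C ^ 2))))) / ε ≤ 3 * (a * ε / 3) / ε := by gcongr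
        _ = a := by field_simp
    · have h1 : min 1 (min (a * ε / 3) (min (s * ε / (3 * C)) (min (s' * ε / (3 * C))
        (ε ^ 3 / (96 * C ^ 2))))) ≤ s * ε / (3 * C) :=
        (min_le_right _ _).trans ((min_le_right _ _).trans (min_le_left _ _))
      calc C * (3 * min 1 (min (a * ε / 3) (min (s * ε / (3 * C)) (min (s' * ε / (3 * C))
        (ε ^ 3 / (96 * C ^ 2))))) / ε) ≤ C * (3 * (s * ε / (3 * C)) / ε) := by gcongr
        _ = s := by field_simp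
    · have h1 : min 1 (min (a * ε / 3) (min (s * ε / (3 * C)) (min (s' * ε / (3 * C))
        (ε ^ 3 / (96 * C ^ 2))))) ≤ s' * ε / (3 * C) :=
        (min_le_right _ _).trans ((min_le_right _ _).trans ((min_le_right _ _).trans
          (min_le_left _ _)))
      calc C * (3 * min 1 (min (a * ε / 3) (min (s * ε / (3 * C)) (min (s' * ε / (3 * C))
        (ε ^ 3 / (96 * C ^ 2))))) / ε) ≤ C * (3 * (s' * ε / (3 * C)) / ε) := by gcongr
        _ = s' := by field_simp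
    · exact (min_le_right _ _).trans ((min_le_right _ _).trans ((min_le_right _ _).trans
          (min_le_right _ _)))
  refine ⟨r₀, hr₀, fun r hr hrr => ?_⟩
  have hr1 : r ≤ 1 := hrr.le.trans hr₀1
  have hrC : (r : ℂ) ≠ 0 := by exact_mod_cast hr.ne'
  have hr3 : 3 * r / ε < 3 * r₀ / ε := by gcongr
  -- the parameters
  have hin : ∀ ζ ∈ ball (0 : En n) (1 - ε),
      ‖(r : ℂ) • ((1 / (1 + inner ℂ e ζ) : ℂ) • (ζ - (inner ℂ e ζ : ℂ) • e)) +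
        ((r : ℂ) ^ 2 * ((1 - inner ℂ e ζ) / (1 + inner ℂ e ζ))) • e‖ ≤ 3 * r / ε := by
    intro ζ hζ
    rw [mem_ball_zero_iff] at hζ
    obtain ⟨_, _, _, h4, h5, _⟩ := cay_inv h.e1 hε hε1 hζ
    have h6 : ‖(r : ℂ)‖ = r := by rw [Complex.norm_real, Real.norm_of_nonneg hr.le]
    calc _ ≤ ‖(r : ℂ) • ((1 / (1 + inner ℂ e ζ) : ℂ) • (ζ - (inner ℂ e ζ : ℂ) • e))‖ +
        ‖((r : ℂ) ^ 2 * ((1 - inner ℂ e ζ) / (1 + inner ℂ e ζ))) • e‖ := norm_add_le _ _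
      _ = r * ‖((1 / (1 + inner ℂ e ζ) : ℂ) • (ζ - (inner ℂ e ζ : ℂ) • e))‖ +
        r ^ 2 * ‖((1 - inner ℂ e ζ) / (1 + inner ℂ e ζ) : ℂ)‖ := by
          rw [norm_smul (r : ℂ), norm_smul (_ * _) e, norm_mul, norm_pow, h6, h.e1, mul_one]
      _ ≤ r * (1 / ε) + r ^ 2 * (2 / ε) := by gcongr
      _ ≤ r * (1 / ε) + r * (2 / ε) := by
          have : r ^ 2 ≤ r := by nlinarith
          gcongr
      _ = 3 * r / ε := by ring
  refine ⟨fun ζ => G ((r : ℂ) • ((1 / (1 + inner ℂ e ζ) : ℂ) • (ζ - (inner ℂ e ζ : ℂ) • e)) +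
        ((r : ℂ) ^ 2 * ((1 - inner ℂ e ζ) / (1 + inner ℂ e ζ))) • e), ?_, ?_⟩
  · have hi : DifferentiableOn ℂ (fun ζ : En n => (inner ℂ e ζ : ℂ)) (ball 0 (1 - ε)) :=
      (innerSL ℂ e).differentiable.differentiableOn
    have hne : ∀ ζ ∈ ball (0 : En n) (1 - ε), (1 + inner ℂ e ζ : ℂ) ≠ 0 := by
      intro ζ hζ
      rw [mem_ball_zero_iff] at hζ
      exact (cay_inv h.e1 hε hε1 hζ).1
    have h0 : DifferentiableOn ℂ (fun ζ : En n => ((1 + inner ℂ e ζ)⁻¹ : ℂ)) (ball 0 (1 - ε)) :=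
      (hi.const_add 1).inv hne
    have h1 : DifferentiableOn ℂ (fun ζ : En n => (1 / (1 + inner ℂ e ζ) : ℂ)) (ball 0 (1 - ε)) := by
      simp only [one_div]
      exact h0
    have h2 : DifferentiableOn ℂ (fun ζ : En n => ((1 - inner ℂ e ζ) / (1 + inner ℂ e ζ) : ℂ))
        (ball 0 (1 - ε)) := by
      simp only [div_eq_mul_inv]
      exact (hi.const_sub 1).mul h0
    have h3 : DifferentiableOn ℂ (fun ζ : En n => ζ - (inner ℂ e ζ : ℂ) • e) (ball 0 (1 - ε)) :=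
      differentiableOn_id.sub (hi.smul_const e)
    have h4 : DifferentiableOn ℂ (fun ζ : En n =>
        (r : ℂ) • ((1 / (1 + inner ℂ e ζ) : ℂ) • (ζ - (inner ℂ e ζ : ℂ) • e)) +
        ((r : ℂ) ^ 2 * ((1 - inner ℂ e ζ) / (1 + inner ℂ e ζ))) • e) (ball 0 (1 - ε)) :=
      ((h1.fun_smul h3).fun_const_smul (r : ℂ)).fun_add ((h2.const_mul _).smul_const e)
    refine hG.comp h4 ?_
    intro ζ hζ
    rw [mem_ball_zero_iff]
    exact lt_of_le_of_lt (hin ζ hζ) (lt_of_lt_of_le hr3 hr₀a)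
  · intro ζ hζ
    have hyn := hin ζ hζ
    have hζ' := hζ
    rw [mem_ball_zero_iff] at hζ'
    obtain ⟨h1, h2, h3, h4, h5, h6⟩ := cay_inv h.e1 hε hε1 hζ'
    set α : ℂ := inner ℂ e ζ with hα
    set x : En n := (1 / (1 + α) : ℂ) • (ζ - α • e) with hx
    set Y : ℂ := (1 - α) / (1 + α) with hY
    set y : En n := (r : ℂ) • x + ((r : ℂ) ^ 2 * Y) • e with hy
    have hyb : y ∈ ball (0 : En n) a := by
      rw [mem_ball_zero_iff]
      exact lt_of_le_of_lt hyn (lt_of_lt_of_le hr3 hr₀a)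
    obtain ⟨hg1, hg2⟩ := hGy y hyb
    change G y ∈ D ∧ Th p W S e r (G y) = ζ ∧ ε / 2 * r ^ 2 ≤ ‖W (G y)‖ ∧
      ‖W (G y)‖ ≤ 2 / ε * r ^ 2
    have hee : (inner ℂ e e : ℂ) = 1 := by
      rw [inner_self_eq_norm_sq_to_K, h.e1]; simp
    have hey : (inner ℂ e y : ℂ) = (r : ℂ) ^ 2 * Y := by
      rw [hy, inner_add_right, inner_smul_right _ _ (r : ℂ), h3, inner_smul_right, hee]
      ring
    have hWz : W (G y) = (r : ℂ) ^ 2 * Y := by
      have h7 : (inner ℂ e (S (G y - p) + W (G y) • e) : ℂ) = inner ℂ e y := by rw [hg1]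
      rw [inner_add_right, h.orth, inner_smul_right, hee, hey] at h7
      simpa using h7
    have hSv : S (G y - p) = (r : ℂ) • x := by
      rw [hWz] at hg1
      exact add_right_cancel hg1
    have hv : ‖G y - p‖ ≤ C * (3 * r / ε) := hg2.trans (by gcongr)
    have hv' : ‖G y - p‖ < C * (3 * r₀ / ε) := lt_of_le_of_lt hv (by gcongr)
    have h6' : ‖(r : ℂ)‖ = r := by rw [Complex.norm_real, Real.norm_of_nonneg hr.le]
    have hWn : ‖W (G y)‖ = r ^ 2 * ‖Y‖ := by rw [hWz, norm_mul, norm_pow, h6']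
    refine ⟨?_, ?_, ?_, ?_⟩
    · apply hlow (G y) (lt_of_lt_of_le hv' hr₀s')
      have e1 : ‖S (G y - p)‖ ^ 2 = r ^ 2 * ‖x‖ ^ 2 := by
        rw [hSv, norm_smul, h6']; ring
      have e2 : ‖W (G y)‖ ≤ r ^ 2 * (2 / ε) := by
        rw [hWz, norm_mul, norm_pow, h6']
        gcongr
      have e3 : (W (G y)).re = r ^ 2 * Y.re := by
        rw [hWz, ← Complex.ofReal_pow, Complex.re_ofReal_mul]
      have e4 : ε ^ 3 / (144 * C ^ 2) * ‖G y - p‖ ^ 2 ≤ r ^ 2 * (ε / 16) := by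
        calc ε ^ 3 / (144 * C ^ 2) * ‖G y - p‖ ^ 2
            ≤ ε ^ 3 / (144 * C ^ 2) * (C * (3 * r / ε)) ^ 2 := by gcongr
          _ = r ^ 2 * (ε / 16) := by field_simp; norm_num
      have e5 : C * (‖W (G y)‖ * ‖G y - p‖) ≤ r ^ 2 * (ε / 16) := by
        calc C * (‖W (G y)‖ * ‖G y - p‖) ≤ C * ((r ^ 2 * (2 / ε)) * (C * (3 * r / ε))) := by
              gcongr
          _ = r ^ 2 * (r * (6 * C ^ 2 / ε ^ 2)) := by field_simp; norm_num
          _ ≤ r ^ 2 * ((ε ^ 3 / (96 * C ^ 2)) * (6 * C ^ 2 / ε ^ 2)) := by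
              have : r ≤ ε ^ 3 / (96 * C ^ 2) := hrr.le.trans hr₀e
              gcongr
          _ = r ^ 2 * (ε / 16) := by field_simp; norm_num
      rw [e1, e3]
      have e6 : r ^ 2 * (‖x‖ ^ 2 + ε / 4) ≤ r ^ 2 * Y.re := by gcongr
      have e7 : 0 < r ^ 2 * (ε / 16) := by positivity
      nlinarith
    · have e1 : W (G y) / (r : ℂ) ^ 2 = Y := by
        rw [hWz]; field_simp
      have e2 : (r : ℂ)⁻¹ • S (G y - p) = x := by
        rw [hSv, smul_smul, inv_mul_cancel₀ hrC, one_smul]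
      rw [Th, e1, e2]
      exact h2
    · have hα1 : ‖α‖ ≤ 1 - ε := by
        have h7 : ‖α‖ ≤ ‖e‖ * ‖ζ‖ := norm_inner_le_norm e ζ
        rw [h.e1, one_mul] at h7
        exact h7.trans hζ'.le
      have h8 : ε ≤ ‖1 - α‖ := by
        have h9 := norm_sub_norm_le (1 : ℂ) α
        rw [norm_one] at h9
        linarith
      have h10 : ‖1 + α‖ ≤ 2 := by
        refine (norm_add_le _ _).trans ?_
        rw [norm_one]
        linarith
      have h11 : 0 < ‖1 + α‖ := norm_pos_iff.2 h1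
      have h12 : ε / 2 ≤ ‖Y‖ := by
        rw [hY, norm_div, div_le_div_iff₀ two_pos h11]
        nlinarith
      rw [hWn, mul_comm]
      exact mul_le_mul_of_nonneg_left h12 (by positivity)
    · rw [hWn, mul_comm]
      exact mul_le_mul_of_nonneg_right h5 (by positivity)

/-- The inverse at the scale `r`, with the size of `W`. PROOF. Copy `TB.th_inv` (TB/D3.lean) with
`ε = 1 - k`; its proof has `W (G y) = r² Y`, `Y = (1 - α)/(1 + α)`, `α = ⟪e, x⟫`, `|α| ≤ k`, so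
`(1 - k)/2 ≤ |Y| ≤ 2/(1 - k)`. -/
theorem th_inv2 (h : SG D p W S e κ C) {k : ℝ} (hk : 0 < k) (hk1 : k < 1) :
    ∃ r₀ > 0, ∀ r, 0 < r → r < r₀ → ∃ ψ : En n → En n, DifferentiableOn ℂ ψ (ball 0 k) ∧
      ∀ x ∈ ball (0 : En n) k, ψ x ∈ D ∧ Th p W S e r (ψ x) = x ∧
        (1 - k) / 2 * r ^ 2 ≤ ‖W (ψ x)‖ ∧ ‖W (ψ x)‖ ≤ 2 / (1 - k) * r ^ 2 := by
  obtain ⟨r₀, hr₀, h1⟩ := G3_inv h (ε := 1 - k) (sub_pos.2 hk1) (by linarith) one_pos
  refine ⟨r₀, hr₀, fun r hr hrr => ?_⟩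
  have h2 := h1 r hr hrr
  rw [sub_sub_cancel] at h2
  exact h2

end Pool.Agent.MPca0fc2.TH
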