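import Pool.Agent.Lib.MP_ca0fc2_an.Mg.G126

set_option autoImplicit false

open Metric Set Filter Topology
open scoped InnerProductSpace

namespace Pool.Agent.MPca0fc2.TH

open Pool.Agent.MPca0fc2.TB

variable {n N : ℕ} {D : Set (En n)} {p e : En n} {W : En n → ℂ} {Θ : ℝ → En n → En n}
  {s K δ₀ κ C : ℝ} {c₀ : En N} {lam : ℝ → ℝ} {H : ℕ → En n → En N} {L R m k r : ℕ → ℝ}

private theorem S3_pow {κ : ℝ} (hκ : 0 < κ) {i j : ℕ} (h : i ≤ j) :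
    κ / 4 ^ (j + 1) ≤ κ / 2 / 2 ^ i := by
  rw [div_div]
  refine div_le_div_of_nonneg_left hκ.le (by positivity) ?_
  have h1 : (2 : ℝ) * 2 ^ i = 2 ^ (i + 1) := by ring
  have h2 : (2 : ℝ) ^ (i + 1) ≤ 2 ^ (j + 1) := pow_le_pow_right₀ (by norm_num) (by omega)
  have h3 : (2 : ℝ) ^ (j + 1) ≤ 4 ^ (j + 1) := pow_le_pow_left₀ (by norm_num) (by norm_num) _
  rw [h1]
  exact h2.trans h3

/-- a series with one large term -/
private theorem S3_sum {T : ℕ → ℂ} (hs : Summable T) {a b : ℝ} (ha : 0 ≤ a) (j : ℕ)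
    (hj : ‖T j‖ ≤ b) (hT : ∀ i, i ≠ j → ‖T i‖ ≤ a / 2 / 2 ^ i) : ‖∑' i, T i‖ ≤ b + a := by
  rw [hs.tsum_eq_add_tsum_ite j]
  refine (norm_add_le _ _).trans (add_le_add hj ?_)
  refine tsum_of_norm_bounded (hasSum_geometric_two' a) fun i => ?_
  by_cases hij : i = j
  · rw [if_pos hij, norm_zero]; positivity
  · rw [if_neg hij]; exact hT i hij

/-- the derivative of one term -/
private theorem S3_term (hCh : Chart D p e W Θ s K) (h : Blk2 D e W Θ K δ₀ κ C c₀ lam H L R m k r)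
    {φ : ℂ → En n} (hφ : DifferentiableOn ℂ φ (ball 0 1))
    (hφD : ∀ x ∈ ball (0 : ℂ) 1, φ x ∈ D ∩ ball p s) (l : Fin N) (j : ℕ) :
    DifferentiableOn ℂ (fun x => (H j (Θ (r j) (φ x)) - c₀) l) (ball 0 1) ∧
      ‖deriv (fun x => (H j (Θ (r j) (φ x)) - c₀) l) 0‖ ≤
        √(infDist (φ 0) Dᶜ / ‖W (φ 0)‖) *
          (K * L j * min (√‖W (φ 0)‖ / r j) (r j / √‖W (φ 0)‖)) := by
  have hr := (h.r0 j).1
  have hw : DifferentiableOn ℂ (fun x => Θ (r j) (φ x)) (ball 0 1) :=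
    (hCh.hol _ hr).comp hφ fun x hx => (hφD x hx).1
  have hmaps : ∀ x ∈ ball (0 : ℂ) 1, Θ (r j) (φ x) ∈ ball (0 : En n) (R j) := fun x hx => by
    rw [mem_ball_zero_iff]
    exact h.rR j _ (subset_closure (hφD x hx).1)
  have hv : DifferentiableOn ℂ (fun x => H j (Θ (r j) (φ x)) - c₀) (ball 0 1) :=
    ((h.hol j).comp hw hmaps).sub_const c₀
  refine ⟨(differentiableOn_euclidean.1 hv) l, ?_⟩
  have h0 : (0 : ℂ) ∈ ball (0 : ℂ) 1 := mem_ball_self one_pos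
  have hw0 : DifferentiableAt ℂ (fun x => Θ (r j) (φ x)) 0 :=
    hw.differentiableAt (isOpen_ball.mem_nhds h0)
  have hH0 : DifferentiableAt ℂ (H j) (Θ (r j) (φ 0)) :=
    (h.hol j).differentiableAt (isOpen_ball.mem_nhds (hmaps 0 h0))
  have hc : HasDerivAt (fun x => H j (Θ (r j) (φ x)) - c₀)
      (fderiv ℂ (H j) (Θ (r j) (φ 0)) (deriv (fun x => Θ (r j) (φ x)) 0)) 0 :=
    (HasFDerivAt.comp_hasDerivAt (0 : ℂ) hH0.hasFDerivAt hw0.hasDerivAt).sub_const c₀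
  have hcl : HasDerivAt (fun x => (H j (Θ (r j) (φ x)) - c₀) l)
      ((fderiv ℂ (H j) (Θ (r j) (φ 0)) (deriv (fun x => Θ (r j) (φ x)) 0)) l) 0 :=
    HasFDerivAt.comp_hasDerivAt (0 : ℂ)
      ((EuclideanSpace.proj (𝕜 := ℂ) l : StrongDual ℂ (En N)).hasFDerivAt) hc
  rw [hcl.deriv]
  refine (PiLp.norm_apply_le _ l).trans ?_
  refine (ContinuousLinearMap.le_opNorm _ _).trans ?_
  have h1 := h.dr j _ (hmaps 0 h0)
  have h2 := hCh.grad (r j) hr φ hφ hφD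
  have hL := h.L1 j
  calc ‖fderiv ℂ (H j) (Θ (r j) (φ 0))‖ * ‖deriv (fun x => Θ (r j) (φ x)) 0‖
      ≤ L j * (K * √(infDist (φ 0) Dᶜ / ‖W (φ 0)‖) *
        min (√‖W (φ 0)‖ / r j) (r j / √‖W (φ 0)‖)) :=
        mul_le_mul h1 h2 (norm_nonneg _) (by linarith)
    _ = _ := by ring

/-- The derivatives along discs. PROOF. `v j x = H j (Θ (r j) (φ x)) - c₀` is holomorphic on the disc,
`‖deriv (v j) 0‖ ≤ L j ‖deriv (Θ (r j) ∘ φ) 0‖ ≤ K L j u μ_j` (`h.dr`, `hCh.grad`), `u = √(d/‖W‖)`,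
`μ_j = min (√‖W‖/r j) (r j/√‖W‖)`. The derivative of the series is the series of the derivatives (the values
are summable uniformly near `φ 0`: `blk2_size`, last part). In the window of `j`
(`r j²/m j ≤ ‖W‖ ≤ m j r j²`) all terms `i ≠ j` of `∑ K L i μ_i` are `≤ κ/2/2^i` (as SH/B7b.lean) and the term `j`
is `≤ K L j`; outside all windows all are. So the norm is `≤ u (κ + K L j)`, resp. `≤ u κ`; `h.lamb`, `hlam`,
`hlam1`, `hCκ`. -/
theorem fD_grad (hpD : p ∉ D) (hCh : Chart D p e W Θ s K)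
    (h : Blk2 D e W Θ K δ₀ κ C c₀ lam H L R m k r) (hlam : AntitoneOn lam (Ioi 0))
    (hlam1 : ∀ a, 0 < a → 1 ≤ lam a) (hC : 0 < C) (hCκ : C * κ ^ 2 ≤ 1)
    {φ : ℂ → En n} (hφ : DifferentiableOn ℂ φ (ball 0 1))
    (hφD : ∀ x ∈ ball (0 : ℂ) 1, φ x ∈ D ∩ ball p s) (l : Fin N) :
    C * ‖deriv (fun x => fD c₀ Θ H r (φ x) l) 0‖ ^ 2 ≤
      lam (C * ‖W (φ 0)‖) * (infDist (φ 0) Dᶜ / ‖W (φ 0)‖) := by
  classical
  obtain ⟨s1, s2, s3, s4⟩ := blk2_size hCh h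
  obtain ⟨-, -, hsumm⟩ := fD_reg hpD hCh h
  have hκ := h.κ0
  have h0 : (0 : ℂ) ∈ ball (0 : ℂ) 1 := mem_ball_self one_pos
  have hD0 : φ 0 ∈ D := (hφD 0 h0).1
  have hcl0 : φ 0 ∈ closure D := subset_closure hD0
  have hne : ∀ x ∈ ball (0 : ℂ) 1, φ x ≠ p := fun x hx e1 => hpD (e1 ▸ (hφD x hx).1)
  have hne0 : φ 0 ≠ p := hne 0 h0
  have ha : 0 < ‖W (φ 0)‖ := (s1 0 _ hcl0 hne0).1
  -- a neighbourhood of `0` on which the series is normally convergent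
  obtain ⟨η, hη⟩ : ∃ η : ℝ, η = ‖φ 0 - p‖ / 2 := ⟨_, rfl⟩
  have hη0 : 0 < η := by
    rw [hη]
    have : 0 < ‖φ 0 - p‖ := norm_pos_iff.2 (sub_ne_zero.2 hne0)
    linarith
  obtain ⟨A, hA0, hA⟩ := s4 η hη0
  have hφc : ContinuousAt φ 0 := (hφ.differentiableAt (isOpen_ball.mem_nhds h0)).continuousAt
  have hev : ∀ᶠ x in 𝓝 (0 : ℂ), η < ‖φ x - p‖ := by
    have hc : ContinuousAt (fun x => ‖φ x - p‖) 0 := (hφc.sub continuousAt_const).norm
    refine hc.eventually (lt_mem_nhds ?_)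
    rw [hη]
    have : 0 < ‖φ 0 - p‖ := norm_pos_iff.2 (sub_ne_zero.2 hne0)
    linarith
  obtain ⟨ρ, hρ, hρb⟩ := Metric.eventually_nhds_iff_ball.1 (hev.and (isOpen_ball.eventually_mem h0))
  have hU : IsOpen (ball (0 : ℂ) ρ) := isOpen_ball
  have hU0 : (0 : ℂ) ∈ ball (0 : ℂ) ρ := mem_ball_self hρ
  obtain ⟨g, hg⟩ : ∃ g : ℕ → ℂ → ℂ, ∀ j x, g j x = (H j (Θ (r j) (φ x)) - c₀) l :=
    ⟨_, fun _ _ => rfl⟩
  have hgf : ∀ j, g j = fun x => (H j (Θ (r j) (φ x)) - c₀) l := fun j => funext fun x => hg j x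
  obtain ⟨u, hu⟩ : ∃ u : ℝ, u = √(infDist (φ 0) Dᶜ / ‖W (φ 0)‖) := ⟨_, rfl⟩
  have hu0 : 0 ≤ u := by rw [hu]; exact Real.sqrt_nonneg _
  have hu2 : u ^ 2 = infDist (φ 0) Dᶜ / ‖W (φ 0)‖ := by
    rw [hu]; exact Real.sq_sqrt (div_nonneg infDist_nonneg (norm_nonneg _))
  have hgd : ∀ j, DifferentiableOn ℂ (g j) (ball 0 ρ) := fun j => by
    rw [hgf]
    exact (S3_term hCh h hφ hφD l j).1.mono fun x hx => (hρb x hx).2
  have hgb : ∀ j, ∀ x ∈ ball (0 : ℂ) ρ, ‖g j x‖ ≤ A * (1 / 4) ^ j := by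
    intro j x hx
    obtain ⟨h1, h2⟩ := hρb x hx
    have hxD : φ x ∈ closure D := subset_closure (hφD x h2).1
    rw [hg]
    exact (PiLp.norm_apply_le _ l).trans (((s1 j _ hxD (hne x h2)).2).trans (hA j _ hxD h1.le))
  have hgeo : Summable fun j : ℕ => A * (1 / 4 : ℝ) ^ j :=
    (summable_geometric_of_lt_one (by norm_num) (by norm_num)).mul_left A
  have hsum := Complex.hasSum_deriv_of_summable_norm hgeo hgd hU hgb hU0
  have hterm : ∀ j, ‖deriv (g j) 0‖ ≤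
      u * (K * L j * min (√‖W (φ 0)‖ / r j) (r j / √‖W (φ 0)‖)) := fun j => by
    rw [hgf, hu]
    exact (S3_term hCh h hφ hφD l j).2
  -- the function
  have hfun : (fun x => fD c₀ Θ H r (φ x) l) =ᶠ[𝓝 0] fun x => c₀ l + ∑' j, g j x := by
    filter_upwards [hU.mem_nhds hU0] with x hx
    have h2 := (hρb x hx).2
    have h3 : Summable fun j => H j (Θ (r j) (φ x)) - c₀ :=
      hsumm _ (subset_closure (hφD x h2).1) (hne x h2)
    have h4 : (∑' j, (H j (Θ (r j) (φ x)) - c₀)) l = ∑' j, (H j (Θ (r j) (φ x)) - c₀) l :=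
      (EuclideanSpace.proj (𝕜 := ℂ) l : StrongDual ℂ (En N)).map_tsum h3
    have h5 : fD c₀ Θ H r (φ x) l = c₀ l + (∑' j, (H j (Θ (r j) (φ x)) - c₀)) l := rfl
    rw [h5, h4]
    congr 1
    exact tsum_congr fun j => (hg j x).symm
  have hder : deriv (fun x => fD c₀ Θ H r (φ x) l) 0 = ∑' j, deriv (g j) 0 := by
    rw [hfun.deriv_eq, deriv_const_add, hsum.tsum_eq]
  rw [hder]
  -- the two cases
  have hKL : ∀ j, 0 ≤ K * L j := fun j =>
    mul_nonneg (zero_le_one.trans hCh.K1) (zero_le_one.trans (h.L1 j))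
  have hCa : 0 < C * ‖W (φ 0)‖ := mul_pos hC ha
  rw [← hu2]
  have hfin : ∀ b : ℝ, 0 ≤ b → C * b ^ 2 ≤ lam (C * ‖W (φ 0)‖) →
      ‖∑' j, deriv (g j) 0‖ ≤ u * b →
      C * ‖∑' j, deriv (g j) 0‖ ^ 2 ≤ lam (C * ‖W (φ 0)‖) * u ^ 2 := by
    intro b hb h1 h2
    have h3 : ‖∑' j, deriv (g j) 0‖ ^ 2 ≤ (u * b) ^ 2 :=
      pow_le_pow_left₀ (norm_nonneg _) h2 2
    calc C * ‖∑' j, deriv (g j) 0‖ ^ 2 ≤ C * (u * b) ^ 2 := mul_le_mul_of_nonneg_left h3 hC.le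
      _ = (C * b ^ 2) * u ^ 2 := by ring
      _ ≤ _ := mul_le_mul_of_nonneg_right h1 (sq_nonneg u)
  by_cases hw : ∃ j, r j ^ 2 / m j ≤ ‖W (φ 0)‖ ∧ ‖W (φ 0)‖ ≤ m j * r j ^ 2
  · obtain ⟨j, hw1, hw2⟩ := hw
    have hmin : min (√‖W (φ 0)‖ / r j) (r j / √‖W (φ 0)‖) ≤ 1 := by
      have hr := (h.r0 j).1
      have hs := Real.sqrt_pos.2 ha
      rcases le_total (√‖W (φ 0)‖) (r j) with h1 | h1
      · exact (min_le_left _ _).trans ((div_le_one hr).2 h1)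
      · exact (min_le_right _ _).trans ((div_le_one hs).2 h1)
    refine hfin (κ + K * L j) (add_nonneg hκ.le (hKL j)) ?_ ?_
    · refine (h.lamb j).trans (hlam hCa ?_ (mul_le_mul_of_nonneg_left hw2 hC.le))
      exact lt_of_lt_of_le hCa (mul_le_mul_of_nonneg_left hw2 hC.le)
    · have h1 := S3_sum hsum.summable (a := u * κ) (b := u * (K * L j))
        (mul_nonneg hu0 hκ.le) j ?_ ?_
      · calc ‖∑' j, deriv (g j) 0‖ ≤ u * (K * L j) + u * κ := h1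
          _ = u * (κ + K * L j) := by ring
      · refine (hterm j).trans (mul_le_mul_of_nonneg_left ?_ hu0)
        calc K * L j * min (√‖W (φ 0)‖ / r j) (r j / √‖W (φ 0)‖) ≤ K * L j * 1 :=
              mul_le_mul_of_nonneg_left hmin (hKL j)
          _ = K * L j := mul_one _
      · intro i hij
        have h2 : K * L i * min (√‖W (φ 0)‖ / r i) (r i / √‖W (φ 0)‖) ≤ κ / 2 / 2 ^ i := by
          rcases lt_or_gt_of_ne hij with hlt | hgt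
          · exact ((s3 i j hlt _ hcl0 hne0).1 hw2).trans (S3_pow hκ hlt.le)
          · exact ((s3 j i hgt _ hcl0 hne0).2 hw1).trans (S3_pow hκ le_rfl)
        refine (hterm i).trans ((mul_le_mul_of_nonneg_left h2 hu0).trans (le_of_eq ?_))
        ring
  · push Not at hw
    refine hfin κ hκ.le (hCκ.trans (hlam1 _ hCa)) ?_
    have h1 : ∀ i, ‖deriv (g i) 0‖ ≤ u * κ / 2 / 2 ^ i := by
      intro i
      have h2 : K * L i * min (√‖W (φ 0)‖ / r i) (r i / √‖W (φ 0)‖) ≤ κ / 2 / 2 ^ i := by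
        refine (s2 i _ hcl0 hne0 ?_).trans (S3_pow hκ le_rfl)
        by_cases h3 : r i ^ 2 / m i ≤ ‖W (φ 0)‖
        · exact Or.inl (hw i h3).le
        · exact Or.inr (not_le.1 h3).le
      refine (hterm i).trans ((mul_le_mul_of_nonneg_left h2 hu0).trans (le_of_eq ?_))
      ring
    exact tsum_of_norm_bounded (hasSum_geometric_two' (u * κ)) h1

end Pool.Agent.MPca0fc2.TH
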