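import Pool.Agent.Lib.MP_ca0fc2_an.Mg.G125
import Pool.Agent.Lib.MP_ca0fc2_an.Mg.G124
import Pool.Agent.Lib.MP_ca0fc2_an.Mg.G123
import Pool.Agent.Lib.MP_ca0fc2_an.TH.S3
import Pool.Agent.Lib.MP_ca0fc2_an.Mg.G122
import Pool.Agent.Lib.MP_ca0fc2_an.XC.AD

/-! The threshold: if `lam` is unbounded and all data of the class have bounded solutions near `p`, then
the corona theorem with uniform bounds holds on the ball. -/

set_option autoImplicit false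

open Metric Set Filter Topology
open scoped InnerProductSpace

namespace Pool.Agent.MPca0fc2.TH

open Pool.Agent.MPca0fc2.TB
open Pool.Agent.Lib.MP_ca0fc2_an

variable {n N : ℕ}

theorem tendsto_unbdd {lam : ℝ → ℝ} (h1 : AntitoneOn lam (Ioi 0))
    (h : ¬ BddAbove (lam '' Ioi 0)) : Tendsto lam (𝓝[>] 0) atTop := by
  rw [Filter.tendsto_atTop]
  intro c
  rw [not_bddAbove_iff] at h
  obtain ⟨_, ⟨a, ha, rfl⟩, hc⟩ := h c
  filter_upwards [Ioo_mem_nhdsGT (show (0 : ℝ) < a from ha)] with b hb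
  exact hc.le.trans (h1 hb.1 ha hb.2.le)

theorem unbounded (hn : 2 ≤ n) {D : Set (En n)} (hD : IsStrictlyPscDomain D) {p : En n}
    (hp : p ∈ frontier D) {F : En n → ℂ} {t : ℝ} (ht : 0 < t)
    (hF : DifferentiableOn ℂ F (ball p t)) (hF0 : F p = 0)
    (hF1 : ∀ z ∈ D ∩ ball p t, 0 < (F z).re) {lam : ℝ → ℝ} (h1 : AntitoneOn lam (Ioi 0))
    (h2 : ∀ a, 0 < a → 1 ≤ lam a) (h3 : ¬ BddAbove (lam '' Ioi 0))
    (hS : ∀ f : Fin N → En n → ℂ, (∀ j, IsHinf D (f j)) →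
      (∃ δ > 0, ∀ z ∈ D, δ ≤ ∑ j, ‖f j z‖ ^ 2) → (∀ j, ContinuousOn (f j) (closure D \ {p})) →
      (∃ r > 0, ∀ j, ∀ φ : ℂ → En n, DifferentiableOn ℂ φ (ball 0 1) →
        (∀ x ∈ ball (0 : ℂ) 1, φ x ∈ D ∩ ball p r) →
        ‖deriv (fun x => f j (φ x)) 0‖ ^ 2 ≤
          lam ‖F (φ 0)‖ * (infDist (φ 0) Dᶜ / ‖F (φ 0)‖)) →
      ∃ r > 0, ∃ h : Fin N → En n → ℂ, (∀ j, IsHinf (D ∩ ball p r) (h j)) ∧
        ∀ z ∈ D ∩ ball p r, ∑ j, f j z * h j z = 1) :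
    ∀ δ > 0, ∃ A : ℝ, Pool.Agent.MPca0fc2AD.UniformQ1 N δ A
      (ball (0 : EuclideanSpace ℂ (Fin n)) 1) (ball 0 1) := by
  intro δ₀ hδ₀
  by_contra hcon
  push Not at hcon
  have hcon' : ∀ A : ℝ, ∃ f : En n → En N, DifferentiableOn ℂ f (ball 0 1) ∧
      (∀ z ∈ ball (0 : En n) 1, δ₀ ≤ ‖f z‖ ∧ ‖f z‖ ≤ 1) ∧ ¬ Solv f (ball 0 1) A := by
    intro A
    have h3 := hcon |A|
    rw [Pool.Agent.MPca0fc2AD.uniformQ1_iff hδ₀ (abs_nonneg A)] at h3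
    push Not at h3
    obtain ⟨f, hf, hfb, hns⟩ := h3
    refine ⟨f, hf, hfb, fun hs => hns ?_⟩
    obtain ⟨g, g1, g2, g3⟩ := hs
    exact ⟨g, g1, fun z hz => (g2 z hz).trans (le_abs_self A), g3⟩
  obtain ⟨U, ρ, hh, c, hs, -⟩ := Pool.Agent.MPca0fc2.LV.support_of_domain hD
  obtain ⟨e, W, Θ, s, K, hCh⟩ := exists_chart (by omega) hs hp
  have hpD : p ∉ D := by
    intro hm
    have := hp.2
    rw [hCh.opn.interior_eq] at this
    exact this hm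
  obtain ⟨C, hC, t', ht', hFle⟩ := F_le hCh ht hF hF0 hF1
  obtain ⟨κ, hκ⟩ : ∃ κ : ℝ, κ = min (1 / (C + 1)) (min 1 (δ₀ / 4)) := ⟨_, rfl⟩
  have hκ0 : 0 < κ := by rw [hκ]; positivity
  have hκ1 : κ ≤ 1 := by rw [hκ]; exact (min_le_right _ _).trans (min_le_left _ _)
  have hκ2 : κ ≤ δ₀ / 4 := by rw [hκ]; exact (min_le_right _ _).trans (min_le_right _ _)
  have hκ3 : κ ≤ 1 / (C + 1) := by rw [hκ]; exact min_le_left _ _
  have hCκ : C * κ ^ 2 ≤ 1 := by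
    rw [le_div_iff₀ (by linarith)] at hκ3
    nlinarith
  obtain ⟨c₀, H, L, R, m, k, r, hB⟩ := exists_blk2 hn hCh hδ₀ hcon' (tendsto_unbdd h1 h3) hκ0
    hκ1 hC
  obtain ⟨f, hf⟩ : ∃ f, f = fD c₀ Θ H r := ⟨_, rfl⟩
  obtain ⟨f1, f2, -⟩ := fD_reg hpD hCh hB
  obtain ⟨f3, f4⟩ := fD_size hpD hCh hB
  rw [← hf] at f1 f2 f3 f4
  have hcomp : ∀ j, DifferentiableOn ℂ (fun z => f z j) D := fun j =>
    (EuclideanSpace.proj (𝕜 := ℂ) j).differentiable.comp_differentiableOn f1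
  obtain ⟨η, hη, g, hg1, hg2⟩ := hS (fun j z => f z j)
    (fun j => ⟨hcomp j, 3, fun z hz => (PiLp.norm_apply_le (f z) j).trans
      ((f3 z hz).2.trans (by linarith))⟩)
    ⟨(δ₀ / 2) ^ 2, by positivity, fun z hz => by
      rw [← EuclideanSpace.norm_sq_eq]
      exact pow_le_pow_left₀ (by positivity) (by linarith [(f3 z hz).1]) 2⟩
    (fun j => (EuclideanSpace.proj (𝕜 := ℂ) j).continuous.comp_continuousOn f2)
    ⟨min s (min t t'), lt_min hCh.s0 (lt_min ht ht'), fun j φ hφ hφD => by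
      have hsub : ∀ x ∈ ball (0 : ℂ) 1, φ x ∈ D ∩ ball p s := fun x hx =>
        ⟨(hφD x hx).1, ball_subset_ball (min_le_left _ _) (hφD x hx).2⟩
      have h0 := hφD 0 (mem_ball_self one_pos)
      have h0t : φ 0 ∈ D ∩ ball p t := ⟨h0.1, ball_subset_ball ((min_le_right _ _).trans
        (min_le_left _ _)) h0.2⟩
      have h0t' : φ 0 ∈ D ∩ ball p t' := ⟨h0.1, ball_subset_ball ((min_le_right _ _).trans
        (min_le_right _ _)) h0.2⟩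
      have g1 := fD_grad hpD hCh hB h1 h2 hC hCκ hφ hsub j
      rw [← hf] at g1
      have hFpos : 0 < ‖F (φ 0)‖ := (hF1 _ h0t).trans_le (Complex.re_le_norm _)
      have hFW := hFle _ h0t'
      have hd : 0 ≤ infDist (φ 0) Dᶜ := infDist_nonneg
      have hCW : 0 < C * ‖W (φ 0)‖ := hFpos.trans_le hFW
      have hW0 : 0 < ‖W (φ 0)‖ := (mul_pos_iff_of_pos_left hC).1 hCW
      have hl : lam (C * ‖W (φ 0)‖) ≤ lam ‖F (φ 0)‖ := h1 hFpos hCW hFW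
      have hl0 : 0 ≤ lam ‖F (φ 0)‖ := zero_le_one.trans (h2 _ hFpos)
      calc ‖deriv (fun x => f (φ x) j) 0‖ ^ 2
          = 1 / C * (C * ‖deriv (fun x => f (φ x) j) 0‖ ^ 2) := by field_simp
        _ ≤ 1 / C * (lam (C * ‖W (φ 0)‖) * (infDist (φ 0) Dᶜ / ‖W (φ 0)‖)) := by gcongr
        _ = lam (C * ‖W (φ 0)‖) * (infDist (φ 0) Dᶜ / (C * ‖W (φ 0)‖)) := by field_simp
        _ ≤ lam ‖F (φ 0)‖ * (infDist (φ 0) Dᶜ / ‖F (φ 0)‖) := by
            refine mul_le_mul hl ?_ (by positivity) hl0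
            exact div_le_div_of_nonneg_left hd hFpos hFW⟩
  choose hd M hM using hg1
  refine fD_ns hCh hB f4 hη (∑ j, |M j|) ?_
  refine ⟨fun z => WithLp.toLp 2 fun j => g j z, ?_, fun z hz => ?_, fun z hz => ?_⟩
  · intro z hz
    rw [differentiableWithinAt_euclidean]
    intro j
    exact (hd j) z hz
  · have h4 : ‖(WithLp.toLp 2 fun j => g j z : En N)‖ ≤ ∑ j, ‖g j z‖ := by
      rw [EuclideanSpace.norm_eq]
      apply Real.sqrt_le_iff.2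
      refine ⟨Finset.sum_nonneg fun j _ => norm_nonneg _, ?_⟩
      exact Finset.sum_sq_le_sq_sum_of_nonneg fun j _ => norm_nonneg _
    exact h4.trans (Finset.sum_le_sum fun j _ => (hM j z hz).trans (le_abs_self _))
  · exact hg2 z hz

/-- Q1 for `N` functions on all strictly pseudoconvex domains in `ℂᵐ`, `2 ≤ m ≤ n`. -/
theorem unbounded_q1 (hn : 2 ≤ n) (hN : 1 ≤ N)
    (h : ∀ δ > 0, ∃ A : ℝ, Pool.Agent.MPca0fc2AD.UniformQ1 N δ A
      (ball (0 : EuclideanSpace ℂ (Fin n)) 1) (ball 0 1)) :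
    ∀ m, 2 ≤ m → m ≤ n → ∀ D : Set (EuclideanSpace ℂ (Fin m)), IsStrictlyPscDomain D →
      ∀ f : Fin N → EuclideanSpace ℂ (Fin m) → ℂ, (∀ j, IsHinf D (f j)) →
        (∃ δ > 0, ∀ z ∈ D, δ ≤ ∑ j, ‖f j z‖ ^ 2) →
        ∃ h : Fin N → EuclideanSpace ℂ (Fin m) → ℂ, (∀ j, IsHinf D (h j)) ∧
          ∀ z ∈ D, ∑ j, f j z * h j z = 1 :=
  ((Pool.Agent.MPca0fc2AD.result (n := n) (N := N) hn hN).out 3 0).1 h

end Pool.Agent.MPca0fc2.TH
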